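import Pool.Agent.Helper79.LG.DR
import Pool.Agent.Helper79.LG.CR

/-!
# Project LG, packet GEN: the dimension of the whole space
-/

universe u v

open scoped BigOperators

open Pool.Agent.Helper64.IG Pool.Agent.Helper79.LG

namespace Pool.Agent.Helper87.LG

/-- the matrix of coordinates -/
def tt {K : Type u} [Field K] {n p : ℕ} (z : Option (Fin p × Fin n) → K) (r j : ℕ) : K :=
  if h : r < p ∧ j < n then z (some (⟨r, h.1⟩, ⟨j, h.2⟩)) else 0

/-- the linear form number `r` -/
def ph {K : Type u} [Field K] {n p : ℕ} (z : Option (Fin p × Fin n) → K) (r : ℕ) {m q : ℕ} :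
    Ix m q → K
  | Sum.inl j => tt z r j
  | Sum.inr s => if r = (s : ℕ) then 1 else 0

theorem ph_inc {K : Type u} [Field K] {n p : ℕ} (z : Option (Fin p × Fin n) → K) (r : ℕ)
    {m q m' q' : ℕ} (hm : m ≤ m') (hq : q ≤ q') (x : Ix m q) :
    ph z r (inc hm hq x) = ph z r x := by
  cases x with
  | inl j => rfl
  | inr s => rfl

/-- the form at the level `(m, q)` -/
def fm {K : Type u} [Field K] {n p : ℕ} (z : Option (Fin p × Fin n) → K) (m q : ℕ) : Form K m q :=
  fun a => z none * Matrix.det (fun i j : Fin q => ph z (Fin.rev i : ℕ) (a j))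

theorem fm_xi {K : Type u} [Field K] {n p : ℕ} (z : Option (Fin p × Fin n) → K) (m q : ℕ) :
    xi (fm z (m + 1) q) = fm z m q := by
  funext a
  simp only [xi, fm, Function.comp_apply, ph_inc]

theorem fm_theta {K : Type u} [Field K] {n p : ℕ} (z : Option (Fin p × Fin n) → K) (m q : ℕ) :
    theta (fm z m (q + 1)) = fm z m q := by
  funext a
  simp only [theta, fm]
  congr 1
  have hdet := Matrix.det_succ_column_zero (Matrix.of (fun i j : Fin (q + 1) =>
    ph z (Fin.rev i : ℕ) ((Fin.cons (Sum.inr (Fin.last q)) (inc (le_refl m) (Nat.le_succ q) ∘ a) :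
      Fin (q + 1) → Ix m (q + 1)) j)))
  refine hdet.trans ?_
  rw [Fin.sum_univ_succ, Finset.sum_eq_zero]
  · simp only [Matrix.of_apply, Fin.cons_zero, Fin.val_zero, pow_zero, one_mul, add_zero]
    have h1 : ph z (Fin.rev (0 : Fin (q + 1)) : ℕ) (Sum.inr (Fin.last q) : Ix m (q + 1)) = 1 := by
      simp [ph]
    rw [h1, one_mul]
    congr 1
    ext i j
    simp only [Matrix.submatrix_apply, Matrix.of_apply, Fin.succAbove_zero, Fin.cons_succ,
      Function.comp_apply, ph_inc]
    congr 1
    simp [Fin.rev]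
  · intro i _
    have h1 : ph z (Fin.rev (Fin.succ i) : ℕ) (Sum.inr (Fin.last q) : Ix m (q + 1)) = 0 := by
      simp only [ph, Fin.val_last, Fin.val_rev, Fin.val_succ]
      rw [if_neg]
      omega
    simp only [Matrix.of_apply, Fin.cons_zero]
    rw [h1]
    ring

/-- the point -/
def pt {K : Type u} [Field K] {n p : ℕ} (z : Option (Fin p × Fin n) → K) : Pt K where
  x := fm z
  dec m q := ⟨z none, fun i => ph z (Fin.rev i : ℕ), fun _ => rfl⟩
  xi_eq := fm_xi z
  theta_eq := fm_theta z

theorem det_rev {K : Type u} [Field K] {p : ℕ} (N : ℕ → Fin p → K) :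
    Matrix.det (fun i j : Fin p => N (Fin.rev i : ℕ) j) =
      ((Equiv.Perm.sign (Fin.revPerm : Equiv.Perm (Fin p)) : ℤ) : K) *
        Matrix.det (fun i j : Fin p => N (i : ℕ) j) := by
  have h := Matrix.det_permute (Fin.revPerm : Equiv.Perm (Fin p))
    (fun i j : Fin p => N (i : ℕ) j)
  exact h

theorem sgn_cases {p : ℕ} (σ : Equiv.Perm (Fin p)) {K : Type u} [Field K] :
    ((Equiv.Perm.sign σ : ℤ) : K) = 1 ∨ ((Equiv.Perm.sign σ : ℤ) : K) = -1 := by
  rcases Int.units_eq_one_or (Equiv.Perm.sign σ) with h | h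
  · left
    rw [h]
    simp
  · right
    rw [h]
    simp

theorem fm_inr {K : Type u} [Field K] {n p : ℕ} (z : Option (Fin p × Fin n) → K) :
    fm z n p Sum.inr = z none * ((Equiv.Perm.sign (Fin.revPerm : Equiv.Perm (Fin p)) : ℤ) : K) := by
  unfold fm
  congr 1
  rw [det_rev (fun r j => ph z r (Sum.inr j : Ix n p))]
  have h1 : (fun i j : Fin p => ph z (i : ℕ) (Sum.inr j : Ix n p)) = (1 : Matrix (Fin p) (Fin p) K) := by
    ext i j
    simp only [ph, Matrix.one_apply, Fin.ext_iff]
  rw [h1, Matrix.det_one, mul_one]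

theorem fm_upd {K : Type u} [Field K] {n p : ℕ} (z : Option (Fin p × Fin n) → K) (i₀ : Fin p)
    (j₀ : Fin n) : fm z n p (Function.update Sum.inr i₀ (Sum.inl j₀)) =
      z none * ((Equiv.Perm.sign (Fin.revPerm : Equiv.Perm (Fin p)) : ℤ) : K) *
        z (some (i₀, j₀)) := by
  unfold fm
  rw [mul_assoc]
  congr 1
  rw [det_rev (fun r j => ph z r ((Function.update Sum.inr i₀ (Sum.inl j₀) : Fin p → Ix n p) j))]
  congr 1
  have h1 : (fun i j : Fin p => ph z (i : ℕ)
      ((Function.update Sum.inr i₀ (Sum.inl j₀) : Fin p → Ix n p) j)) =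
      (1 : Matrix (Fin p) (Fin p) K).updateCol i₀ (fun i => z (some (i, j₀))) := by
    ext i j
    rw [Matrix.updateCol_apply]
    by_cases hj : j = i₀
    · subst hj
      rw [Function.update_self, if_pos rfl]
      simp [ph, tt]
    · rw [Function.update_of_ne hj, if_neg hj]
      simp only [ph, Matrix.one_apply, Fin.ext_iff]
  rw [h1]
  have h2 := Matrix.cramer_apply (1 : Matrix (Fin p) (Fin p) K) (fun i => z (some (i, j₀))) i₀
  rw [← h2, Matrix.cramer_one]
  rfl

theorem adj_eq {k : Type v} {K : Type u} [Field k] [Field K] [Algebra k K] {n p : ℕ}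
    (z : Option (Fin p × Fin n) → K) (hz : z none ≠ 0) :
    IntermediateField.adjoin k (Set.range (fm z n p)) = IntermediateField.adjoin k (Set.range z) := by
  apply le_antisymm
  · rw [IntermediateField.adjoin_le_iff]
    rintro _ ⟨a, rfl⟩
    have hmem : ∀ o, z o ∈ IntermediateField.adjoin k (Set.range z) := fun o =>
      IntermediateField.subset_adjoin k _ ⟨o, rfl⟩
    refine mul_mem (hmem none) (det_mem _ _ fun i j => ?_)
    rcases a j with y | s
    · simp only [ph, tt]
      split_ifs
      · exact hmem _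
      · exact zero_mem _
    · simp only [ph]
      split_ifs
      · exact one_mem _
      · exact zero_mem _
  · rw [IntermediateField.adjoin_le_iff]
    set L := IntermediateField.adjoin k (Set.range (fm z n p)) with hL
    have hmem : ∀ a, fm z n p a ∈ L := fun a => IntermediateField.subset_adjoin k _ ⟨a, rfl⟩
    set s : K := ((Equiv.Perm.sign (Fin.revPerm : Equiv.Perm (Fin p)) : ℤ) : K) with hs
    have hs2 : s * s = 1 := by
      rcases sgn_cases (K := K) (Fin.revPerm : Equiv.Perm (Fin p)) with h | h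
      · rw [hs, h, one_mul]
      · rw [hs, h]
        ring
    have hs0 : s ≠ 0 := fun h => by
      rw [h, mul_zero] at hs2
      exact zero_ne_one hs2
    have hsL : s ∈ L := by
      rcases sgn_cases (K := K) (Fin.revPerm : Equiv.Perm (Fin p)) with h | h
      · rw [hs, h]
        exact one_mem _
      · rw [hs, h]
        exact neg_mem (one_mem _)
    have h0 : z none ∈ L := by
      have h1 := hmem Sum.inr
      rw [fm_inr] at h1
      have h2 : z none = (z none * s) * s := by rw [mul_assoc, hs2, mul_one]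
      rw [h2]
      exact mul_mem h1 hsL
    rintro _ ⟨o, rfl⟩
    rcases o with _ | ⟨i, j⟩
    · exact h0
    · have h1 := hmem (Function.update Sum.inr i (Sum.inl j))
      rw [fm_upd] at h1
      have h2 : z (some (i, j)) = (z none * s * z (some (i, j))) / (z none * s) := by
        field_simp
      rw [h2]
      exact div_mem h1 (mul_mem h0 hsL)

theorem trdeg_adj {k : Type v} {K : Type u} [Field k] [Field K] [Algebra k K] {ι : Type}
    [Fintype ι] (z : ι → K) (hz : AlgebraicIndependent k z) :
    Algebra.trdeg k (IntermediateField.adjoin k (Set.range z)) =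
      ((Fintype.card ι : ℕ) : Cardinal.{u}) := by
  set L := IntermediateField.adjoin k (Set.range z) with hL
  let z' : ι → L := fun i => ⟨z i, IntermediateField.subset_adjoin k _ ⟨i, rfl⟩⟩
  have hz' : AlgebraicIndependent k z' := by
    have h1 : AlgebraicIndependent k (L.val ∘ z') := hz
    exact h1.of_comp L.val
  have halg := alg_gen (F := k) z
  have hr : {x : L | (x : K) ∈ Set.range z} = Set.range z' := by
    ext x
    constructor
    · rintro ⟨i, hi⟩
      exact ⟨i, Subtype.ext hi⟩
    · rintro ⟨i, rfl⟩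
      exact ⟨i, rfl⟩
  rw [← hL, hr] at halg
  have hb : IsTranscendenceBasis k z' := hz'.isTranscendenceBasis_iff_isAlgebraic.2 halg
  have h2 := hb.lift_cardinalMk_eq_trdeg
  simpa using h2.symm

theorem gen : G_GEN.{u, v} := by
  intro k K _ _ _ n p h
  obtain ⟨ι, x, hx⟩ := exists_isTranscendenceBasis' k K
  have hcard : Fintype.card (Option (Fin p × Fin n)) = n * p + 1 := by
    simp [mul_comm]
  rw [← hx.cardinalMk_eq_trdeg] at h
  obtain ⟨g⟩ : Nonempty (Option (Fin p × Fin n) ↪ ι) := by
    rw [← Cardinal.lift_mk_le']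
    rw [Cardinal.mk_fintype, hcard]
    simpa using h
  have hz : AlgebraicIndependent k (fun o => x (g o)) := hx.1.comp g g.injective
  refine ⟨pt (fun o => x (g o)), ?_⟩
  have h1 : (pt (fun o => x (g o))).x n p = fm (fun o => x (g o)) n p := rfl
  rw [h1, adj_eq _ (hz.ne_zero none), trdeg_adj _ hz, hcard]

end Pool.Agent.Helper87.LG
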